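import Pool.Agent.Helper59.DG.Gen

/-!
# Douglas algebras and unit balls around inner functions

For a Douglas algebra `D` generated by a family `F` of inner functions: every inner function
invertible in `D` is a Blaschke product if and only if for each finite product `B` of members of
`F` and each `v` in `H^∞` of norm less than one all inner divisors of `B + v` are Blaschke products.
-/

set_option autoImplicit false

namespace Pool.Agent.Helper81.DGX

open MeasureTheory AddCircle Metric Filter Topology Pool.Agent.Helper59 Pool.Agent.Helper59.DGA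

noncomputable section

private theorem ball_pow {D : Set (Cir → ℂ)} (hD : IsDouglas D) {w : Cir → ℂ} (hw : w ∈ D) :
    ∀ n : ℕ, (fun t => (-(w t)) ^ n) ∈ D := by
  intro n
  induction n with
  | zero =>
    have : (fun t => (-(w t)) ^ 0) = fun _ : Cir => (1 : ℂ) := by
      funext t
      rw [pow_zero]
    rw [this]
    exact hD.hinf (Hinf.const 1)
  | succ n ih =>
    have : (fun t => (-(w t)) ^ (n + 1)) = (fun t => (-(w t)) ^ n) * ((fun _ : Cir => (-1 : ℂ)) * w) := by
      funext t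
      simp only [Pi.mul_apply]
      ring
    rw [this]
    exact hD.mul _ ih _ (hD.mul _ (hD.hinf (Hinf.const (-1))) _ hw)

private theorem ball_geom {D : Set (Cir → ℂ)} (hD : IsDouglas D) {w : Cir → ℂ} (hw : w ∈ D) :
    ∀ n : ℕ, (fun t => ∑ i ∈ Finset.range n, (-(w t)) ^ i) ∈ D := by
  intro n
  induction n with
  | zero =>
    have : (fun t : Cir => ∑ i ∈ Finset.range 0, (-(w t)) ^ i) = fun _ : Cir => (0 : ℂ) := by
      funext t
      simp
    rw [this]
    exact hD.hinf (Hinf.const 0)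
  | succ n ih =>
    have : (fun t => ∑ i ∈ Finset.range (n + 1), (-(w t)) ^ i) =
        (fun t => ∑ i ∈ Finset.range n, (-(w t)) ^ i) + (fun t => (-(w t)) ^ n) := by
      funext t
      simp only [Pi.add_apply]
      rw [Finset.sum_range_succ]
    rw [this]
    exact hD.add _ ih _ (ball_pow hD hw n)

/-- an inner divisor of a function at distance less than one from an invertible inner function is
invertible -/
theorem inv_of_ball {D : Set (Cir → ℂ)} (hD : IsDouglas D) {B v I k : Cir → ℂ} {ρ : ℝ}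
    (hB : B ∈ DGA.Inv D) (hv : v ∈ Hinf) (hρ : ρ < 1) (hvρ : ∀ᵐ t ∂mC, ‖v t‖ ≤ ρ) (hI : IsInner I)
    (hk : k ∈ Hinf) (h : ∀ᵐ t ∂mC, B t + v t = I t * k t) : I ∈ DGA.Inv D := by
  refine ⟨hI, hD.closed _ (Gen.memLp_cj hI.1.1) fun δ hδ => ?_⟩
  have hw : cj B * v ∈ D := hD.mul _ hB.2 _ (hD.hinf hv)
  obtain ⟨N, hN⟩ := exists_pow_lt_of_lt_one hδ (show max ρ 0 < 1 from max_lt hρ one_pos)
  refine ⟨cj B * k * (fun t => ∑ i ∈ Finset.range N, (-((cj B * v) t)) ^ i),
    hD.mul _ (hD.mul _ hB.2 _ (hD.hinf hk)) _ (ball_geom hD hw N), ?_⟩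
  filter_upwards [hB.1.2, hI.2, hvρ, h] with t h1 h2 h3 h4
  have e1 : starRingEnd ℂ (B t) * B t = 1 := Gen.cj_mul h1
  have e2 : starRingEnd ℂ (I t) * I t = 1 := Gen.cj_mul h2
  set w : ℂ := starRingEnd ℂ (B t) * v t with hwt
  have e3 : starRingEnd ℂ (B t) * k t = starRingEnd ℂ (I t) * (1 + w) := by
    have e4 : starRingEnd ℂ (B t) * (I t * k t) = 1 + w := by
      rw [← h4, mul_add, e1]
    calc starRingEnd ℂ (B t) * k t = (starRingEnd ℂ (I t) * I t) * (starRingEnd ℂ (B t) * k t) := by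
          rw [e2, one_mul]
      _ = starRingEnd ℂ (I t) * (starRingEnd ℂ (B t) * (I t * k t)) := by ring
      _ = _ := by rw [e4]
  have e5 : (1 + w) * ∑ i ∈ Finset.range N, (-w) ^ i = 1 - (-w) ^ N := by
    have := mul_neg_geom_sum (-w) N
    rw [sub_neg_eq_add] at this
    exact this
  have e6 : cj I t - (cj B * k * (fun t => ∑ i ∈ Finset.range N, (-((cj B * v) t)) ^ i)) t =
      starRingEnd ℂ (I t) * (-w) ^ N := by
    simp only [Pi.mul_apply, cj]
    rw [← hwt, e3, mul_assoc, e5]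
    ring
  rw [e6, norm_mul, RCLike.norm_conj, h2, one_mul, norm_pow, norm_neg, hwt, norm_mul,
    RCLike.norm_conj, h1, one_mul]
  exact (pow_le_pow_left₀ (norm_nonneg _) (h3.trans (le_max_left _ _)) N).trans hN.le

/-- **Unit ball criterion.** -/
theorem ball_iff {D F : Set (Cir → ℂ)} (h : IsGen D F) :
    (∀ I ∈ DGA.Inv D, IsBlaschke I) ↔
      ∀ B ∈ Submonoid.closure F, ∀ v ∈ Hinf, ∀ ρ < 1, (∀ᵐ t ∂mC, ‖v t‖ ≤ ρ) →
        ∀ I, IsInner I → ∀ k ∈ Hinf, (∀ᵐ t ∂mC, B t + v t = I t * k t) → IsBlaschke I := by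
  have hF : ∀ B ∈ F, IsInner B := fun B hB => (h.sub hB).1
  have hsub : D ⊆ Gen.Alg F := h.least _ (Gen.alg_douglas hF) (Gen.sub_alg hF)
  constructor
  · intro H B hB v hv ρ hρ hvρ I hI k hk hBv
    exact H I (inv_of_ball h.douglas (Gen.closure_inv h.douglas h.sub hB) hv hρ hvρ hI hk hBv)
  · intro H I hI
    obtain ⟨B, hB, g, hg, hd⟩ := (hsub hI.2).2 (1 / 2) (by norm_num)
    have iB := Gen.closure_inner hF B hB
    refine H B hB (I * g + (fun _ : Cir => (-1 : ℂ)) * B)
      (Hinf.add (Hinf.mul hI.1.1 hg) (Hinf.mul (Hinf.const (-1)) iB.1)) (1 / 2) (by norm_num) ?_ I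
      hI.1 g hg (Eventually.of_forall fun t => ?_)
    · filter_upwards [hd, iB.2, hI.1.2] with t h1 h2 h3
      have e1 : starRingEnd ℂ (B t) * B t = 1 := Gen.cj_mul h2
      have e2 : starRingEnd ℂ (I t) * I t = 1 := Gen.cj_mul h3
      have e3 : (I * g + (fun _ : Cir => (-1 : ℂ)) * B) t =
          -(I t * B t * (cj I t - cj B t * g t)) := by
        simp only [Pi.add_apply, Pi.mul_apply, cj]
        linear_combination (B t) * e2 - (I t * g t) * e1
      rw [e3, norm_neg, norm_mul, norm_mul, h2, h3, one_mul, one_mul]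
      exact h1
    · simp only [Pi.add_apply, Pi.mul_apply]
      ring

end

end Pool.Agent.Helper81.DGX
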