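import Pool.Agent.Helper59.DG.Gen

/-!
# Level sets of Blaschke products in terms of the zeros
-/

set_option autoImplicit false

namespace Pool.Agent.Helper81.DGX

open MeasureTheory AddCircle Metric Filter Topology Pool.Agent.Helper59 Pool.Agent.Helper59.DGA

noncomputable section

/-- `B` is a Blaschke product with the zeros `a i` (counted with multiplicity) -/
def HasZeros {ι : Type} (B : Cir → ℂ) (a : ι → ℂ) : Prop :=
  IsInner B ∧ (∀ i, ‖a i‖ < 1) ∧ Summable (fun i => 1 - ‖a i‖) ∧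
    ∃ c : ℂ, ‖c‖ = 1 ∧ ∀ z : ℂ, ‖z‖ < 1 → HasProd (fun i => bfac (a i) z) (ext B z / c)

/-- `(1 - |z|²) (1 - |a|²) / |1 - ā z|²`, that is `1 - ρ²`, `ρ` the pseudohyperbolic distance of
`a` and `z` -/
def gap (a z : ℂ) : ℝ := (1 - ‖z‖ ^ 2) * (1 - ‖a‖ ^ 2) / ‖1 - starRingEnd ℂ a * z‖ ^ 2

theorem den_pos {a z : ℂ} (ha : ‖a‖ < 1) (hz : ‖z‖ < 1) : 0 < ‖1 - starRingEnd ℂ a * z‖ := by
  rw [norm_pos_iff]
  intro h
  have h1 : starRingEnd ℂ a * z = 1 := (sub_eq_zero.1 h).symm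
  have h2 : ‖starRingEnd ℂ a * z‖ = ‖a‖ * ‖z‖ := by rw [norm_mul, RCLike.norm_conj]
  rw [h1, norm_one] at h2
  nlinarith [norm_nonneg a, norm_nonneg z]

theorem bfac_sq {a z : ℂ} (ha : ‖a‖ < 1) (hz : ‖z‖ < 1) : ‖bfac a z‖ ^ 2 = 1 - gap a z := by
  have hd := den_pos ha hz
  have key : ‖a - z‖ ^ 2 = ‖1 - starRingEnd ℂ a * z‖ ^ 2 - (1 - ‖z‖ ^ 2) * (1 - ‖a‖ ^ 2) := by
    rw [← Complex.normSq_eq_norm_sq, ← Complex.normSq_eq_norm_sq, ← Complex.normSq_eq_norm_sq,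
      ← Complex.normSq_eq_norm_sq]
    simp only [Complex.normSq_apply, Complex.sub_re, Complex.sub_im, Complex.mul_re,
      Complex.mul_im, Complex.one_re, Complex.one_im, Complex.conj_re, Complex.conj_im]
    ring
  have h1 : ‖bfac a z‖ = ‖a - z‖ / ‖1 - starRingEnd ℂ a * z‖ := by
    unfold bfac
    split_ifs with h
    · rw [h, map_zero, zero_mul, sub_zero, norm_one, div_one, zero_sub, norm_neg]
    · have ha0 : ‖a‖ ≠ 0 := norm_ne_zero_iff.2 h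
      rw [norm_mul, norm_div, norm_div, Complex.norm_real, norm_norm, div_self ha0, one_mul]
  rw [h1, div_pow, key, gap]
  field_simp

theorem gap_nonneg {a z : ℂ} (ha : ‖a‖ < 1) (hz : ‖z‖ < 1) : 0 ≤ gap a z := by
  unfold gap
  have h1 : 0 ≤ 1 - ‖z‖ ^ 2 := by nlinarith [norm_nonneg z]
  have h2 : 0 ≤ 1 - ‖a‖ ^ 2 := by nlinarith [norm_nonneg a]
  positivity

theorem gap_le_one {a z : ℂ} (ha : ‖a‖ < 1) (hz : ‖z‖ < 1) : gap a z ≤ 1 := by
  have := bfac_sq ha hz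
  nlinarith [sq_nonneg ‖bfac a z‖]

theorem gap_le {a z : ℂ} (ha : ‖a‖ < 1) (hz : ‖z‖ < 1) :
    gap a z ≤ 2 / (1 - ‖z‖) ^ 2 * (1 - ‖a‖) := by
  have h0 : 0 < 1 - ‖z‖ := by linarith
  have h1 : 1 - ‖z‖ ≤ ‖1 - starRingEnd ℂ a * z‖ := by
    have h2 : ‖(1 : ℂ)‖ - ‖starRingEnd ℂ a * z‖ ≤ ‖1 - starRingEnd ℂ a * z‖ := norm_sub_norm_le _ _
    rw [norm_one, norm_mul, RCLike.norm_conj] at h2
    nlinarith [norm_nonneg a, norm_nonneg z]
  have h3 : (1 - ‖z‖) ^ 2 ≤ ‖1 - starRingEnd ℂ a * z‖ ^ 2 := pow_le_pow_left₀ h0.le h1 2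
  have h4 : 0 ≤ 1 - ‖a‖ := by linarith
  unfold gap
  rw [div_mul_eq_mul_div]
  have h5 : (1 - ‖z‖ ^ 2) * (1 - ‖a‖ ^ 2) ≤ 2 * (1 - ‖a‖) := by
    have h6 : 1 - ‖a‖ ^ 2 ≤ 2 * (1 - ‖a‖) := by nlinarith [norm_nonneg a]
    have h7 : 1 - ‖z‖ ^ 2 ≤ 1 := by nlinarith [sq_nonneg ‖z‖]
    have h8 : 0 ≤ 1 - ‖a‖ ^ 2 := by nlinarith [norm_nonneg a]
    nlinarith
  exact div_le_div₀ (by positivity) h5 (by positivity) h3

theorem summable_gap {ι : Type} {a : ι → ℂ} (ha : ∀ i, ‖a i‖ < 1)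
    (hs : Summable fun i => 1 - ‖a i‖) {z : ℂ} (hz : ‖z‖ < 1) : Summable fun i => gap (a i) z :=
  Summable.of_nonneg_of_le (fun i => gap_nonneg (ha i) hz) (fun i => gap_le (ha i) hz)
    (hs.mul_left _)

private theorem zer_prod_ge {ι : Type} (u : ι → ℝ) (h0 : ∀ i, 0 ≤ u i) (h1 : ∀ i, u i ≤ 1)
    (s : Finset ι) : 1 - ∑ i ∈ s, u i ≤ ∏ i ∈ s, (1 - u i) := by
  classical
  induction s using Finset.induction_on with
  | empty => simp
  | insert i s hi ih =>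
    rw [Finset.sum_insert hi, Finset.prod_insert hi]
    have h2 : ∏ i ∈ s, (1 - u i) ≤ 1 := Finset.prod_le_one (fun i _ => by linarith [h1 i])
      (fun i _ => by linarith [h0 i])
    nlinarith [h0 i, h1 i, mul_nonneg (h0 i) (sub_nonneg.2 h2)]

private theorem zer_prod_le {ι : Type} (u : ι → ℝ) (h1 : ∀ i, u i ≤ 1) (s : Finset ι) :
    ∏ i ∈ s, (1 - u i) ≤ Real.exp (-∑ i ∈ s, u i) := by
  rw [← Finset.sum_neg_distrib, Real.exp_sum]
  exact Finset.prod_le_prod (fun i _ => by linarith [h1 i])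
    (fun i _ => by have := Real.add_one_le_exp (-(u i)); linarith)

variable {ι : Type} {B : Cir → ℂ} {a : ι → ℂ}

theorem HasZeros.hasProd (h : HasZeros B a) {z : ℂ} (hz : ‖z‖ < 1) :
    HasProd (fun i => 1 - gap (a i) z) (‖ext B z‖ ^ 2) := by
  obtain ⟨-, ha, -, c, hc, hp⟩ := h
  have h1 := (hp z hz).map (Complex.normSq : ℂ →*₀ ℝ) Complex.continuous_normSq
  have h2 : Complex.normSq (ext B z / c) = ‖ext B z‖ ^ 2 := by
    rw [Complex.normSq_eq_norm_sq, norm_div, hc, div_one]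
  rw [h2] at h1
  refine h1.congr_fun ?_
  intro i
  show 1 - gap (a i) z = Complex.normSq (bfac (a i) z)
  rw [Complex.normSq_eq_norm_sq, bfac_sq (ha i) hz]

/-- lower bound -/
theorem HasZeros.ge (h : HasZeros B a) {z : ℂ} (hz : ‖z‖ < 1) :
    1 - ∑' i, gap (a i) z ≤ ‖ext B z‖ ^ 2 := by
  refine ge_of_tendsto' (h.hasProd hz) fun s => ?_
  refine le_trans ?_ (zer_prod_ge _ (fun i => gap_nonneg (h.2.1 i) hz)
    (fun i => gap_le_one (h.2.1 i) hz) s)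
  have := (summable_gap h.2.1 h.2.2.1 hz).sum_le_tsum s (fun i _ => gap_nonneg (h.2.1 i) hz)
  linarith

/-- upper bound -/
theorem HasZeros.le (h : HasZeros B a) {z : ℂ} (hz : ‖z‖ < 1) :
    ‖ext B z‖ ^ 2 ≤ Real.exp (-∑' i, gap (a i) z) := by
  refine le_of_tendsto_of_tendsto' (h.hasProd hz)
    ((Real.continuous_exp.comp continuous_neg).tendsto _ |>.comp
      (summable_gap h.2.1 h.2.2.1 hz).hasSum) fun s => ?_
  exact zer_prod_le _ (fun i => gap_le_one (h.2.1 i) hz) s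

theorem HasZeros.lev_of_lt (h : HasZeros B a) {z : ℂ} (hz : ‖z‖ < 1) {ε : ℝ}
    (hε : ∑' i, gap (a i) z < ε) : 1 - ε < ‖ext B z‖ := by
  have h1 := h.ge hz
  have h2 := IsInner.ext_le h.1 hz
  nlinarith [norm_nonneg (ext B z)]

theorem HasZeros.lt_of_lev (h : HasZeros B a) {z : ℂ} (hz : ‖z‖ < 1) {ε : ℝ}
    (hε : Real.exp (-(ε / 2)) < ‖ext B z‖) : ∑' i, gap (a i) z < ε := by
  have h1 := h.le hz
  have h2 : Real.exp (-ε) < ‖ext B z‖ ^ 2 := by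
    have h3 : Real.exp (-ε) = Real.exp (-(ε / 2)) ^ 2 := by
      rw [← Real.exp_nat_mul]
      congr 1
      push_cast
      ring
    rw [h3]
    exact pow_lt_pow_left₀ hε (Real.exp_pos _).le two_ne_zero
  have h4 := Real.exp_lt_exp.1 (h2.trans_le h1)
  linarith

/-- **Criterion in the zeros.** -/
theorem zeros_iff {J : Type} (B : J → Cir → ℂ) (ι : J → Type) (a : ∀ j, ι j → ℂ)
    (hB : ∀ j, HasZeros (B j) (a j)) {D : Set (Cir → ℂ)} (h : IsGen D (Set.range B)) :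
    (∀ I ∈ DGA.Inv D, IsBlaschke I) ↔
      ∀ s : Finset J, ∀ ε > 0, ∀ K : Set Cir, IsCompact K → mC K = 0 → ∀ η > 0,
        ∃ (S : Finset ℂ) (m : ℂ → ℝ),
          (∀ z ∈ S, ‖z‖ < 1 ∧ 0 ≤ m z ∧ ∀ j ∈ s, ∑' i, gap (a j i) z < ε) ∧
          ∑ z ∈ S, m z < η ∧ ∀ t ∈ K, 1 ≤ ∑ z ∈ S, m z * P z t := by
  classical
  have m13 := (main_gen D (Set.range B) h).out 0 2
  refine Iff.trans m13 ?_
  constructor
  · intro H s ε hε K hK hK0 η hη
    have hs : ((s.image B : Finset (Cir → ℂ)) : Set (Cir → ℂ)) ⊆ Set.range B := by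
      intro x hx
      obtain ⟨j, -, rfl⟩ := Finset.mem_image.1 (Finset.mem_coe.1 hx)
      exact ⟨j, rfl⟩
    have he : 0 < 1 - Real.exp (-(ε / 2)) := by
      have : Real.exp (-(ε / 2)) < 1 := by
        rw [Real.exp_lt_one_iff]
        linarith
      linarith
    obtain ⟨S, m, h1, h2, h3⟩ := H (s.image B) hs _ he K hK hK0 η hη
    refine ⟨S, m, fun z hz => ⟨(h1 z hz).1.1, (h1 z hz).2, fun j hj => ?_⟩, h2, h3⟩
    refine (hB j).lt_of_lev (h1 z hz).1.1 ?_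
    have := (h1 z hz).1.2 (B j) (Finset.mem_image_of_mem B hj)
    linarith
  · intro H s hs ε hε K hK hK0 η hη
    obtain ⟨t, -, ht⟩ := Finset.subset_set_image_iff.1
      (show (s : Set (Cir → ℂ)) ⊆ B '' Set.univ by rw [Set.image_univ]; exact hs)
    obtain ⟨S, m, h1, h2, h3⟩ := H t ε hε K hK hK0 η hη
    refine ⟨S, m, fun z hz => ⟨⟨(h1 z hz).1, fun C hC => ?_⟩, (h1 z hz).2.1⟩, h2, h3⟩
    rw [← ht] at hC
    obtain ⟨j, hj, rfl⟩ := Finset.mem_image.1 hC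
    exact (hB j).lev_of_lt (h1 z hz).1 ((h1 z hz).2.2 j hj)

end

end Pool.Agent.Helper81.DGX
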