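import Pool.Agent.Helper81.DGX.Ball
import Pool.Agent.Helper81.DGX.Zer

/-!
# The characterisation for a Douglas algebra generated by a family of inner functions
-/

set_option autoImplicit false

namespace Pool.Agent.Helper81.DGX

open MeasureTheory AddCircle Metric Filter Topology Pool.Agent.Helper59 Pool.Agent.Helper59.DGA

theorem main_gen4 (D F : Set (Cir → ℂ)) (h : IsGen D F) :
    [∀ I ∈ DGA.Inv D, IsBlaschke I,
      ∀ s : Finset (Cir → ℂ), (s : Set (Cir → ℂ)) ⊆ F → ∀ ε > 0, ∀ h : ℂ → ℝ, PosHarm h →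
        BddAbove (h '' Levs s ε) → BddAbove (h '' ball 0 1),
      ∀ s : Finset (Cir → ℂ), (s : Set (Cir → ℂ)) ⊆ F → ∀ ε > 0,
        ∀ K : Set Cir, IsCompact K → mC K = 0 → ∀ η > 0,
        ∃ (S : Finset ℂ) (a : ℂ → ℝ), (∀ z ∈ S, z ∈ Levs s ε ∧ 0 ≤ a z) ∧ ∑ z ∈ S, a z < η ∧
          ∀ t ∈ K, 1 ≤ ∑ z ∈ S, a z * P z t,
      ∀ B ∈ Submonoid.closure F, ∀ v ∈ Hinf, ∀ ρ < 1, (∀ᵐ t ∂mC, ‖v t‖ ≤ ρ) →
        ∀ I, IsInner I → ∀ k ∈ Hinf, (∀ᵐ t ∂mC, B t + v t = I t * k t) → IsBlaschke I].TFAE := by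
  have hm := main_gen D F h
  have m12 := hm.out 0 1
  have m13 := hm.out 0 2
  tfae_have 1 ↔ 2 := m12
  tfae_have 1 ↔ 3 := m13
  tfae_have 1 ↔ 4 := ball_iff h
  tfae_finish

end Pool.Agent.Helper81.DGX
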